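import Pool.Agent.H80.AN.TargetsA

/-! MP_2697e3_an, all dimensions: the good points of a pinched cell have mass. -/

set_option autoImplicit false

namespace Pool.Agent.H17.AN

open MeasureTheory Metric Set Filter Topology Pool.Agent.H87.SN Pool.Agent.H87.SH Pool.Agent.H87.AX
open Pool.Agent.H22.AN
open scoped ContDiff RealInnerProductSpace ENNReal

theorem pf_GST (hMUF : T_MUF) : T_GST := by
  intro d m Λ G hG hΛ K x s e om hs hball he hom hth hW
  obtain ⟨hfin, _, _, _, _, hcont⟩ := hMUF d m G hG.memG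
  have : IsFiniteMeasure (mu G) := ⟨lt_top_iff_ne_top.mpr hfin⟩
  have hs64 : 0 < s / 64 := by positivity
  have hsd : 0 < (s / 64) ^ d := by positivity
  -- the measure of the cell
  have hcell : e * (s / 64) ^ d ≤ (mu G).real (ball x (s / 64)) := by
    unfold th at hth
    rwa [le_div_iff₀ hsd] at hth
  have hdr : Measurable fun p => dr G K p s := by
    unfold dr th
    exact (((hcont _).div_const _).sub ((hcont _).div_const _)).measurable
  have hmeas : MeasurableSet {p : V d | p ∈ ball x (s / 64) ∧ dr G K p s ≤ om} :=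
    measurableSet_ball.inter (measurableSet_le hdr measurable_const)
  refine ⟨hmeas, ?_⟩
  -- the points which are not pinched
  obtain ⟨A, hA⟩ : ∃ A : Set (V d), A = {p | p ∈ ball x (s / 64) ∧ om < dr G K p s} := ⟨_, rfl⟩
  have hmA : ENNReal.ofReal om * mu G A ≤
      ∫⁻ p in ball x (s / 64), ENNReal.ofReal (dr G K p s) ∂(mu G) := by
    have h1 := mul_meas_ge_le_lintegral₀ (μ := (mu G).restrict (ball x (s / 64)))
      hdr.ennreal_ofReal.aemeasurable (ENNReal.ofReal om)
    refine le_trans (mul_le_mul' le_rfl ?_) h1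
    rw [Measure.restrict_apply' measurableSet_ball]
    apply measure_mono
    rw [hA]
    intro p hp
    exact ⟨ENNReal.ofReal_le_ofReal hp.2.le, hp.1⟩
  have hsd' : 0 < s ^ d := by positivity
  have hI : ∫⁻ p in ball x (s / 64), ENNReal.ofReal (dr G K p s) ∂(mu G) <
      ENNReal.ofReal (s ^ d * (om * e / (2 * 64 ^ d))) := by
    have h1 : ∫⁻ p in ball x (s / 64), ENNReal.ofReal (dr G K p s) ∂(mu G) =
        ENNReal.ofReal (s ^ d) * Wc G K x s := by
      unfold Wc
      rw [← mul_assoc, ← ENNReal.ofReal_mul hsd'.le, mul_inv_cancel₀ hsd'.ne', ENNReal.ofReal_one,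
        one_mul]
    rw [h1, ENNReal.ofReal_mul hsd'.le]
    exact ENNReal.mul_lt_mul_right (ENNReal.ofReal_pos.mpr hsd').ne' ENNReal.ofReal_ne_top hW
  have hAr : (mu G).real A < e * (s / 64) ^ d / 2 := by
    have h1 := hmA.trans_lt hI
    have h2 : mu G A = ENNReal.ofReal ((mu G).real A) := (ofReal_measureReal).symm
    rw [h2, ← ENNReal.ofReal_mul hom.le,
      ENNReal.ofReal_lt_ofReal_iff (by positivity)] at h1
    have h3 : om * (mu G).real A < om * (e * (s / 64) ^ d / 2) := by
      calc om * (mu G).real A < s ^ d * (om * e / (2 * 64 ^ d)) := h1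
        _ = om * (e * (s / 64) ^ d / 2) := by
          rw [div_pow]
          field_simp
    exact lt_of_mul_lt_mul_left h3 hom.le
  have hcov : ball x (s / 64) ⊆ A ∪ {p : V d | p ∈ ball x (s / 64) ∧ dr G K p s ≤ om} := by
    intro p hp
    by_cases h : dr G K p s ≤ om
    · exact Or.inr ⟨hp, h⟩
    · rw [hA]
      exact Or.inl ⟨hp, not_le.1 h⟩
  have h4 : (mu G).real (ball x (s / 64)) ≤ (mu G).real A +
      (mu G).real {p : V d | p ∈ ball x (s / 64) ∧ dr G K p s ≤ om} :=
    (measureReal_mono hcov).trans (measureReal_union_le _ _)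
  linarith

end Pool.Agent.H17.AN
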